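import Pool.Agent.Helper341.Metric.PoisFwd
import Pool.Agent.H622R3.SP.Metric
import Pool.Agent.H749R6.CM.Fin

/-!
# Exactly `m` primes just above `x = α ^ b n`, and none just below

Let `λ > 0`, `Λ ≥ 0` and let `m ≥ 0` be an integer. There is `c > 0` such that for EVERY sequence `b n → ∞`
of real numbers and almost every `α > 1` there are infinitely many `N` such that for at least `c N` of the
`n < N` the point `x = α ^ b n` satisfies: there are exactly `m` primes in `(x, x + λ log x]` and no prime in
`(x - Λ log x, x]`. The constant does not depend on the sequence.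

Proof. The integers `n` such that all `x` between `n` and `n + 1` have this property have positive lower
density: the theorem of the starting library on the integers with exactly `m` primes in
`(n, n + λ log n]` and none in `(n - Λ log n, n]` (`Pool.Agent.H749R6.CM.pois`, from `H361R2.PP`: Maynard's
sieve, after Freiberg), and few integers have a prime within `2` of the end of the window. The metric
theorem for an arbitrary set of integers of positive lower density is `Pool.Agent.H622R3.SP.metric`.
-/

set_option autoImplicit false

open Filter Topology MeasureTheory Pool.Agent.Helper341.Metric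

namespace Pool.Agent.Results.MP_78b39f_nt.PowersOfAlmostAllNumbers

theorem result (lam Lam : ℝ) (m : ℕ) (hlam : 0 < lam) (hLam : 0 ≤ Lam) :
    ∃ c : ℝ, 0 < c ∧
      ∀ b : ℕ → ℝ, Tendsto b atTop atTop → ∀ᵐ α : ℝ, 1 < α → ∃ᶠ N : ℕ in atTop,
        c * N ≤ ({n : ℕ | n < N ∧ Pattern lam Lam m (α ^ b n)}.ncard : ℝ) := by
  classical
  obtain ⟨c, hc, S, hS, hdens⟩ := densP Pool.Agent.H749R6.CM.pois lam Lam m hlam hLam
  refine ⟨c / 2, by positivity, ?_⟩
  intro b hb
  have hdens' : ∀ᶠ N : ℕ in atTop,
      c * N ≤ (((Finset.range N).filter (fun m => m ∈ S)).card : ℝ) := by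
    filter_upwards [hdens] with N hN
    convert hN
  filter_upwards [Pool.Agent.H622R3.SP.metric S c hc hdens' b hb] with α hα hα1
  refine (hα hα1).mono fun N hN => hN.trans ?_
  rw [← Set.ncard_coe_finset]
  apply Nat.cast_le.2
  apply Set.ncard_le_ncard
  · intro n hn
    rw [Finset.mem_coe, Finset.mem_filter, Finset.mem_range] at hn
    obtain ⟨h1, m, h2, h3, h4⟩ := hn
    exact ⟨h1, hS m h2 _ h3 h4⟩
  · exact (Set.finite_Iio N).subset fun n hn => hn.1

end Pool.Agent.Results.MP_78b39f_nt.PowersOfAlmostAllNumbers
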